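import Mathlib

set_option autoImplicit false

/-!
Index tuples with `∑ a (f j) ∈ [n - h w, n]`, the indices that occur in them, and large families of integers
whose sets of indices are pairwise disjoint.
-/

open Finset

namespace Pool.Agent.H261ET

/-- index tuples with `n - h w ≤ ∑ a (f j) ≤ n` -/
def sol (a : ℕ → ℕ) (h w n : ℕ) : Finset (Fin h → ℕ) :=
  (Fintype.piFinset fun _ : Fin h => range (n + 1)).filter
    fun f => ∑ j, a (f j) ≤ n ∧ n ≤ ∑ j, a (f j) + h * w

theorem mem_sol {a : ℕ → ℕ} (ha : StrictMono a) {h w n : ℕ} {f : Fin h → ℕ} :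
    f ∈ sol a h w n ↔ ∑ j, a (f j) ≤ n ∧ n ≤ ∑ j, a (f j) + h * w := by
  unfold sol
  rw [mem_filter, Fintype.mem_piFinset]
  refine ⟨fun H => H.2, fun H => ⟨fun j => ?_, H⟩⟩
  rw [mem_range]
  have h1 : f j ≤ a (f j) := ha.le_apply
  have h2 : a (f j) ≤ ∑ j, a (f j) := single_le_sum (f := fun j => a (f j)) (fun _ _ => Nat.zero_le _) (mem_univ j)
  omega

/-- the indices that occur in the tuples of `sol` -/
def inv (a : ℕ → ℕ) (h w n : ℕ) : Finset ℕ := (sol a h w n).biUnion fun f => univ.image f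

theorem card_inv (a : ℕ → ℕ) (h w n : ℕ) : (inv a h w n).card ≤ (sol a h w n).card * h := by
  unfold inv
  refine card_biUnion_le_card_mul _ _ _ fun f _ => ?_
  refine card_image_le.trans ?_
  rw [card_univ, Fintype.card_fin]

/-- the indices of the elements up to `X` -/
def idx (a : ℕ → ℕ) (X : ℕ) : Finset ℕ := (range (X + 1)).filter fun i => a i ≤ X

theorem mem_idx {a : ℕ → ℕ} (ha : StrictMono a) {X i : ℕ} : i ∈ idx a X ↔ a i ≤ X := by
  unfold idx
  rw [mem_filter, mem_range]
  have h1 : i ≤ a i := ha.le_apply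
  exact ⟨fun H => H.2, fun H => ⟨by omega, H⟩⟩

theorem idx_pow {a : ℕ → ℕ} (ha : StrictMono a) (h w X m : ℕ)
    (hm : ∀ n ≤ h * X, (sol a h w n).card ≤ m) : (idx a X).card ^ h ≤ (h * X + 1) * m := by
  have h1 : (Fintype.piFinset fun _ : Fin h => idx a X) ⊆
      (range (h * X + 1)).biUnion fun n => sol a h w n := by
    intro f hf
    rw [Fintype.mem_piFinset] at hf
    rw [mem_biUnion]
    refine ⟨∑ j, a (f j), ?_, (mem_sol ha).2 ⟨le_rfl, Nat.le_add_right _ _⟩⟩
    rw [mem_range]
    have : ∑ j, a (f j) ≤ ∑ _j : Fin h, X := sum_le_sum fun j _ => (mem_idx ha).1 (hf j)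
    rw [sum_const, card_univ, Fintype.card_fin, smul_eq_mul] at this
    omega
  have h2 := card_le_card h1
  rw [Fintype.card_piFinset_const] at h2
  have h3 : ((range (h * X + 1)).biUnion fun n => sol a h w n).card ≤ (range (h * X + 1)).card * m :=
    card_biUnion_le_card_mul _ _ _ fun n hn => hm n (by rw [mem_range] at hn; omega)
  rw [card_range] at h3
  exact h2.trans h3

theorem card_through (h : ℕ) (Q : Finset ℕ) (i : ℕ) :
    ((Fintype.piFinset fun _ : Fin h => Q).filter fun f => ∃ j, f j = i).card ≤ h * Q.card ^ (h - 1) := by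
  classical
  have h1 : ((Fintype.piFinset fun _ : Fin h => Q).filter fun f => ∃ j, f j = i) ⊆
      (univ : Finset (Fin h)).biUnion fun j =>
        Fintype.piFinset fun j' : Fin h => if j' = j then {i} else Q := by
    intro f hf
    rw [mem_filter, Fintype.mem_piFinset] at hf
    obtain ⟨hf, j, hj⟩ := hf
    rw [mem_biUnion]
    refine ⟨j, mem_univ j, ?_⟩
    rw [Fintype.mem_piFinset]
    intro j'
    split_ifs with hjj
    · rw [mem_singleton, hjj, hj]
    · exact hf j'
  refine (card_le_card h1).trans ?_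
  refine (card_biUnion_le_card_mul _ _ (Q.card ^ (h - 1)) fun j _ => ?_).trans ?_
  · rw [Fintype.card_piFinset, ← mul_prod_erase univ _ (mem_univ j), if_pos rfl, card_singleton, one_mul]
    have h2 : ∏ x ∈ univ.erase j, (if x = j then ({i} : Finset ℕ) else Q).card =
        ∏ _x ∈ univ.erase j, Q.card := by
      refine prod_congr rfl fun x hx => ?_
      rw [if_neg (ne_of_mem_erase hx)]
    rw [h2, prod_const, card_erase_of_mem (mem_univ j), card_univ, Fintype.card_fin]
  · rw [card_univ, Fintype.card_fin]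

theorem card_degree {a : ℕ → ℕ} (ha : StrictMono a) (h w X : ℕ) (D : Finset ℕ) (hD : ∀ n ∈ D, n ≤ X)
    (i : ℕ) : (D.filter fun n => i ∈ inv a h w n).card ≤
      h * (idx a X).card ^ (h - 1) * (h * w + 1) := by
  classical
  have h1 : (D.filter fun n => i ∈ inv a h w n) ⊆
      (((Fintype.piFinset fun _ : Fin h => idx a X).filter fun f => ∃ j, f j = i) ×ˢ
        range (h * w + 1)).image fun z => ∑ j, a (z.1 j) + z.2 := by
    intro n hn
    rw [mem_filter] at hn
    obtain ⟨hnD, hi⟩ := hn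
    unfold inv at hi
    rw [mem_biUnion] at hi
    obtain ⟨f, hf, hfi⟩ := hi
    rw [mem_image] at hfi
    obtain ⟨j, -, hj⟩ := hfi
    rw [mem_sol ha] at hf
    rw [mem_image]
    refine ⟨(f, n - ∑ j, a (f j)), ?_, by simp only; omega⟩
    rw [mem_product, mem_filter, Fintype.mem_piFinset, mem_range]
    refine ⟨⟨fun j' => ?_, j, hj⟩, by simp only; omega⟩
    rw [mem_idx ha]
    show a (f j') ≤ X
    have h2 : a (f j') ≤ ∑ j, a (f j) :=
      single_le_sum (f := fun j => a (f j)) (fun _ _ => Nat.zero_le _) (mem_univ j')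
    have := hD n hnD
    omega
  refine (card_le_card h1).trans (card_image_le.trans ?_)
  rw [card_product, card_range]
  exact Nat.mul_le_mul_right _ (card_through h (idx a X) i)

theorem exists_maximal_family (D : Finset ℕ) (I : ℕ → Finset ℕ) :
    ∃ S ⊆ D, (S : Set ℕ).PairwiseDisjoint I ∧ ∀ n ∈ D, n ∉ S → ∃ n' ∈ S, ¬ Disjoint (I n) (I n') := by
  classical
  obtain ⟨S, hS, hmax⟩ := exists_max_image
    (D.powerset.filter fun S : Finset ℕ => (S : Set ℕ).PairwiseDisjoint I) card
    ⟨∅, by simp⟩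
  rw [mem_filter, mem_powerset] at hS
  refine ⟨S, hS.1, hS.2, fun n hn hnS => ?_⟩
  by_contra hcon
  push Not at hcon
  have h1 : insert n S ∈ D.powerset.filter fun S : Finset ℕ => (S : Set ℕ).PairwiseDisjoint I := by
    rw [mem_filter, mem_powerset]
    refine ⟨insert_subset hn hS.1, ?_⟩
    rw [coe_insert]
    exact hS.2.insert fun n' hn' _ => hcon n' hn'
  have h2 := hmax _ h1
  rw [card_insert_of_notMem hnS] at h2
  omega

/-- a large family with pairwise disjoint sets of indices -/
theorem family_count {a : ℕ → ℕ} (ha : StrictMono a) (h w X m : ℕ) (D : Finset ℕ)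
    (hD : ∀ n ∈ D, n ≤ X) (hm : ∀ n ≤ X, (sol a h w n).card ≤ m) :
    ∃ S ⊆ D, (S : Set ℕ).PairwiseDisjoint (inv a h w) ∧
      D.card ≤ S.card * (1 + m * h * (h * (idx a X).card ^ (h - 1) * (h * w + 1))) := by
  classical
  obtain ⟨S, hSD, hdis, hmax⟩ := exists_maximal_family D (inv a h w)
  refine ⟨S, hSD, hdis, ?_⟩
  have h1 : D ⊆ S ∪ (S.biUnion (inv a h w)).biUnion fun i => D.filter fun n => i ∈ inv a h w n := by
    intro n hn
    rw [mem_union]
    by_cases hnS : n ∈ S
    · exact Or.inl hnS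
    · right
      obtain ⟨n', hn', hd⟩ := hmax n hn hnS
      rw [not_disjoint_iff] at hd
      obtain ⟨i, hi, hi'⟩ := hd
      rw [mem_biUnion]
      exact ⟨i, mem_biUnion.2 ⟨n', hn', hi'⟩, mem_filter.2 ⟨hn, hi⟩⟩
  have h2 : (S.biUnion (inv a h w)).card ≤ S.card * (m * h) :=
    card_biUnion_le_card_mul _ _ _ fun n hn =>
      (card_inv a h w n).trans (Nat.mul_le_mul_right _ (hm n (hD n (hSD hn))))
  calc D.card ≤ (S ∪ (S.biUnion (inv a h w)).biUnion fun i => D.filter fun n => i ∈ inv a h w n).card :=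
        card_le_card h1
    _ ≤ S.card + ((S.biUnion (inv a h w)).biUnion fun i => D.filter fun n => i ∈ inv a h w n).card :=
        card_union_le _ _
    _ ≤ S.card + (S.biUnion (inv a h w)).card * (h * (idx a X).card ^ (h - 1) * (h * w + 1)) := by
        gcongr
        exact card_biUnion_le_card_mul _ _ _ fun i _ => card_degree ha h w X D hD i
    _ ≤ S.card + S.card * (m * h) * (h * (idx a X).card ^ (h - 1) * (h * w + 1)) := by
        gcongr
    _ = S.card * (1 + m * h * (h * (idx a X).card ^ (h - 1) * (h * w + 1))) := by ring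

end Pool.Agent.H261ET
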