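import Pool.Agent.H261ET.Final

set_option autoImplicit false

/-!
Bounded shifts change the representation function at most by a constant factor, up to the maximum over the
preceding integers.
-/

open Finset Filter Topology

namespace Pool.Agent.H261ET

theorem exists_index' {A : Set ℕ} {b : ℕ → ℕ} (hA : A = Set.range b) {h n : ℕ} {s : Multiset ℕ}
    (hs : s ∈ reps A h n) : ∃ f : Fin h → ℕ, ((univ : Finset (Fin h)).val.map fun j => b (f j)) = s := by
  obtain ⟨hc, hsA, hsum⟩ := hs
  obtain ⟨l, rfl⟩ := Quotient.exists_rep s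
  have hl : l.length = h := hc
  subst hl
  have h1 : ∀ i : Fin l.length, ∃ k, b k = l.get i := by
    intro i
    have h2 : l.get i ∈ A := hsA _ (by simp)
    rw [hA] at h2
    exact h2
  choose f hf using h1
  refine ⟨f, ?_⟩
  simp only [hf]
  have h2 : ((univ : Finset (Fin l.length)).val.map fun j => l.get j) =
      ((List.ofFn fun j => l.get j : List ℕ) : Multiset ℕ) := by
    rw [← Fin.univ_val_map]
  rw [h2, List.ofFn_get]
  rfl

theorem reps_le_sol (a z : ℕ → ℕ) (ha : StrictMono a) (h w : ℕ) (hz : ∀ i, z i ≤ w) (n : ℕ) :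
    (reps (Set.range fun i => a i + z i) h n).ncard ≤ (sol a h w n).card := by
  classical
  have h1 : reps (Set.range fun i => a i + z i) h n ⊆
      (((sol a h w n).image fun f => (univ : Finset (Fin h)).val.map fun j => a (f j) + z (f j) :
        Finset (Multiset ℕ)) : Set (Multiset ℕ)) := by
    intro s hs
    obtain ⟨f, hf⟩ := exists_index' rfl hs
    rw [mem_coe, mem_image]
    refine ⟨f, ?_, hf⟩
    have h2 : ∑ j, (a (f j) + z (f j)) = n := by
      have := hs.2.2
      rw [← hf] at this
      exact this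
    rw [mem_sol ha]
    rw [sum_add_distrib] at h2
    have h4 : ∑ j, z (f j) ≤ ∑ _j : Fin h, w := sum_le_sum fun j _ => hz (f j)
    rw [sum_const, card_univ, Fintype.card_fin, smul_eq_mul] at h4
    omega
  have h2 := Set.ncard_le_ncard h1 (Finset.finite_toSet _)
  rw [Set.ncard_coe_finset] at h2
  exact h2.trans card_image_le

theorem sol_le_reps (a : ℕ → ℕ) (ha : StrictMono a) (h w n R : ℕ)
    (hR : ∀ m ≤ n, (reps (Set.range a) h m).ncard ≤ R) :
    (sol a h w n).card ≤ (h * w + 1) * ((h * (w + 1)) ^ h * R) := by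
  classical
  have h1 : sol a h w n ⊆ (Icc (n - h * w) n).biUnion fun m' =>
      (sol a h w n).filter fun f => ∑ j, (a (f j) + (fun _ => 0) (f j)) = m' := by
    intro f hf
    rw [mem_biUnion]
    refine ⟨∑ j, (a (f j) + 0), ?_, mem_filter.2 ⟨hf, rfl⟩⟩
    rw [mem_sol ha] at hf
    simp only [add_zero]
    rw [mem_Icc]
    omega
  refine (card_le_card h1).trans ((card_biUnion_le_card_mul _ _ ((h * (w + 1)) ^ h * R)
    fun m' hm' => ?_).trans ?_)
  · refine (card_sum_eq a (fun _ => 0) ha h w (fun _ => Nat.zero_le _) n m').trans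
      (Nat.mul_le_mul_left _ ?_)
    rw [mem_Icc] at hm'
    simpa using hR m' hm'.2
  · refine Nat.mul_le_mul_right _ ?_
    rw [Nat.card_Icc]
    omega

/-- the shifted set has at most `K` times as many representations as the set has before -/
theorem shift_le (a z : ℕ → ℕ) (ha : StrictMono a) (h w : ℕ) (hz : ∀ i, z i ≤ w) (n R : ℕ)
    (hR : ∀ m ≤ n, (reps (Set.range a) h m).ncard ≤ R) :
    (reps (Set.range fun i => a i + z i) h n).ncard ≤ (h * w + 1) * (h * (w + 1)) ^ h * R := by
  refine (reps_le_sol a z ha h w hz n).trans ((sol_le_reps a ha h w n R hR).trans (le_of_eq ?_))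
  ring

/-- if the representation function of `a` is `o (log n)` then that of the shifted set is not at least `c log x`
somewhere below `x`, for all large `x` -/
theorem not_large (a z : ℕ → ℕ) (ha : StrictMono a) (h w : ℕ) (hz : ∀ i, z i ≤ w) (c : ℝ) (hc : 0 < c)
    (ho : Tendsto (fun n : ℕ => ((reps (Set.range a) h n).ncard : ℝ) / Real.log n) atTop (𝓝 0)) :
    ¬ ∀ᶠ x : ℕ in atTop, ∃ m ≤ x, c * Real.log x ≤
      ((reps (Set.range fun i => a i + z i) h m).ncard : ℝ) := by
  intro H
  set K : ℕ := (h * w + 1) * (h * (w + 1)) ^ h with hK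
  have hη : 0 < c / (4 * (K + 1)) := by positivity
  obtain ⟨N, hN⟩ := eventually_atTop.1 (ho.eventually (gt_mem_nhds hη))
  set C0 : ℕ := ∑ n ∈ range (N + 2), (reps (Set.range a) h n).ncard with hC0
  have hlog : Tendsto (fun x : ℕ => Real.log x) atTop atTop :=
    Real.tendsto_log_atTop.comp tendsto_natCast_atTop_atTop
  obtain ⟨x, ⟨m, hmx, hm⟩, hx1, hx2⟩ := (H.and ((hlog.eventually_gt_atTop
    ((4 * (K + 1) * (C0 + 1)) / c)).and (eventually_ge_atTop 2))).exists
  have hlx : 0 ≤ Real.log x := Real.log_natCast_nonneg x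
  -- a bound for the original representation function up to `x`
  have hb : ∀ m' ≤ m, (reps (Set.range a) h m').ncard ≤ C0 + ⌊c / (4 * (K + 1)) * Real.log x⌋₊ := by
    intro m' hm'
    rcases lt_or_ge m' (N + 2) with h1 | h1
    · have : (reps (Set.range a) h m').ncard ≤ C0 :=
        single_le_sum (f := fun n => (reps (Set.range a) h n).ncard) (fun _ _ => Nat.zero_le _)
          (mem_range.2 h1)
      omega
    · have h2 := hN m' (by omega)
      have h3 : 0 < Real.log m' := Real.log_pos (by exact_mod_cast (by omega : 1 < m'))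
      rw [div_lt_iff₀ h3] at h2
      have h4 : Real.log m' ≤ Real.log x :=
        Real.log_le_log (by exact_mod_cast (by omega : 0 < m')) (by exact_mod_cast hm'.trans hmx)
      have h5 : (reps (Set.range a) h m').ncard ≤ ⌊c / (4 * (K + 1)) * Real.log x⌋₊ := by
        apply Nat.le_floor
        refine h2.le.trans ?_
        gcongr
      omega
  have h6 := shift_le a z ha h w hz m _ hb
  have h7 : ((reps (Set.range fun i => a i + z i) h m).ncard : ℝ) ≤
      K * (C0 + c / (4 * (K + 1)) * Real.log x) := by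
    have h8 : ((reps (Set.range fun i => a i + z i) h m).ncard : ℝ) ≤
        K * ((C0 : ℝ) + (⌊c / (4 * (K + 1)) * Real.log x⌋₊ : ℝ)) := by exact_mod_cast h6
    refine h8.trans ?_
    gcongr
    exact Nat.floor_le (by positivity)
  have h9 : (4 * ((K : ℝ) + 1) * (C0 + 1)) < c * Real.log x := by
    rw [div_lt_iff₀ hc] at hx1
    linarith
  have hK0 : (0 : ℝ) ≤ K := Nat.cast_nonneg K
  have hC00 : (0 : ℝ) ≤ C0 := Nat.cast_nonneg C0
  have h10 : (K : ℝ) * (c / (4 * (K + 1)) * Real.log x) ≤ c * Real.log x / 4 := by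
    have e : (K : ℝ) * (c / (4 * (K + 1)) * Real.log x) = (K / (K + 1)) * (c * Real.log x / 4) := by
      field_simp
    rw [e]
    have h11 : (K : ℝ) / (K + 1) ≤ 1 := by
      rw [div_le_one (by positivity)]; linarith
    exact mul_le_of_le_one_left (by positivity) h11
  nlinarith

end Pool.Agent.H261ET
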