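import Pool.Agent.H261ET.Trade

set_option autoImplicit false

/-!
Bounded random perturbations: Borel-Cantelli over the dyadic scales and the trade-off.
-/

open Finset Filter Topology MeasureTheory ProbabilityTheory

namespace Pool.Agent.H261ET

open Classical in
theorem scale_prob {a : ℕ → ℕ} (ha : StrictMono a) (h w q : ℕ) (hh : 1 ≤ h) (hq : 2 ≤ q) (δ η : ℝ)
    (hδ : 0 < δ) (hη0 : 0 < η) (hη1 : η ≤ 1) (hηL : |Real.log δ| * (η * h) ≤ 1 / (8 * h))
    {Ω : Type*} [mΩ : MeasurableSpace Ω] (μ : Measure Ω) [IsProbabilityMeasure μ]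
    {m : ℕ → MeasurableSpace Ω} (hle : ∀ i, m i ≤ mΩ) (hind : iIndep m μ)
    {G : ℕ → Set Ω} (hG : ∀ i, MeasurableSet[m i] (G i)) (hδG : ∀ i, δ ≤ μ.real (G i)) :
    ∃ C : ℝ, ∀ᶠ X : ℕ in atTop, (top a h w X : ℝ) ≤ η * Real.log X → ∀ D : Finset ℕ, D.card = X / q →
      (∀ n ∈ D, X < n ∧ n ≤ 2 * X ∧ ¬ q ∣ n) →
      μ.real {ω | ((D.filter fun n => ω ∈ ⋂ i ∈ inv a h w n, G i).card : ℝ) <
        δ ^ (top a h w X * h) * D.card / 2} ≤ C * (((X : ℝ) ^ (1 / (8 * h : ℝ))) ^ 4)⁻¹ := by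
  have hhr : (1 : ℝ) ≤ h := by exact_mod_cast hh
  have hδ1 : δ ≤ 1 := (hδG 0).trans measureReal_le_one
  have hLδ : Real.log δ = -|Real.log δ| := by
    rw [abs_of_nonpos (Real.log_nonpos hδ.le hδ1), neg_neg]
  have hτ : 0 < (1 / (8 * h : ℝ)) := by positivity
  set u : ℝ := h * (h * (h * w + 1)) with hu
  have hu0 : 0 ≤ u := by rw [hu]; positivity
  have e1 : ∀ᶠ x : ℕ in atTop, |Real.log x| ≤ 1 * |(x : ℝ) ^ (1 / (8 * h : ℝ))| :=
    tendsto_natCast_atTop_atTop.eventually ((isLittleO_log_rpow_atTop hτ).def one_pos)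
  refine ⟨8 * q * u * (2 * h + 1), ?_⟩
  filter_upwards [e1, eventually_ge_atTop (2 * q)] with X hX1 hXq htop D hDc hD
  have hX1' : 1 ≤ X := by omega
  have hXr : (1 : ℝ) ≤ X := by exact_mod_cast hX1'
  set y : ℝ := (X : ℝ) ^ (1 / (8 * h : ℝ)) with hy
  have hy1 : 1 ≤ y := Real.one_le_rpow hXr hτ.le
  have hlog0 : 0 ≤ Real.log X := Real.log_natCast_nonneg X
  have hmy : (top a h w X : ℝ) ≤ y := by
    rw [abs_of_nonneg hlog0, abs_of_nonneg (by linarith), one_mul] at hX1
    refine htop.trans (le_trans ?_ hX1)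
    nlinarith
  have hXy : (X : ℝ) = y ^ (8 * h) := by
    rw [hy, ← Real.rpow_natCast, ← Real.rpow_mul (by linarith)]
    push_cast
    rw [one_div, inv_mul_cancel₀ (by positivity), Real.rpow_one]
  have hDpos : 0 < D.card := by
    rw [hDc]
    exact Nat.div_pos (by omega) (by omega)
  have hdr : (X : ℝ) / (2 * q) ≤ D.card := by
    rw [hDc]
    have h3 : X < q * (X / q + 1) := by
      have := Nat.lt_mul_div_succ X (by omega : 0 < q)
      simpa using this
    have h4 : (X : ℝ) < q * (((X / q : ℕ) : ℝ) + 1) := by exact_mod_cast h3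
    have h5 : (2 : ℝ) * q ≤ X := by exact_mod_cast hXq
    have h6 : (0 : ℝ) < q := by
      have : 0 < q := by omega
      exact_mod_cast this
    rw [div_le_iff₀ (by positivity)]
    nlinarith
  have h0 : 2 * X ≤ h * (2 * X) := Nat.le_mul_of_pos_left _ hh
  have key := second_moment hle hind hG hδ hδ1 hδG (inv a h w) (top a h w X * h)
    (top a h w X * h * (h * (idx a (2 * X)).card ^ (h - 1) * (h * w + 1))) D hDpos
    (fun n hn => (card_inv a h w n).trans (Nat.mul_le_mul_right _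
      (le_top a h w X n ((hD n hn).2.1.trans h0))))
    (fun n hn => pairs_le ha h w X hh D (fun n hn => (hD n hn).2.1) n hn)
  have hpow := idx_pow ha h w (2 * X) (top a h w X) (fun n hn => le_top a h w X n hn)
  have hpy : y⁻¹ ≤ δ ^ (top a h w X * h) := by
    have h7 : δ ^ (top a h w X * h) = Real.exp (-(|Real.log δ| * ((top a h w X : ℝ) * h))) := by
      rw [← Real.exp_log hδ, ← Real.exp_nat_mul, Real.log_exp, hLδ, abs_neg, abs_abs]
      congr 1
      push_cast
      ring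
    have h8 : y⁻¹ = Real.exp (-(1 / (8 * h) * Real.log X)) := by
      rw [hy, Real.rpow_def_of_pos (by linarith), ← Real.exp_neg]
      congr 1
      ring
    rw [h7, h8]
    apply Real.exp_le_exp.2
    rw [neg_le_neg_iff]
    calc |Real.log δ| * ((top a h w X : ℝ) * h) ≤ |Real.log δ| * ((η * Real.log X) * h) := by gcongr
      _ = |Real.log δ| * (η * h) * Real.log X := by ring
      _ ≤ 1 / (8 * h) * Real.log X := by gcongr
  refine key.trans ?_
  have h9 := bound_calc h hh y (idx a (2 * X)).card (top a h w X) u q X D.card (δ ^ (top a h w X * h))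
    hy1 (by have : 0 < q := by omega
            exact_mod_cast this) hu0 (Nat.cast_nonneg _) (Nat.cast_nonneg _) hXy hmy hdr hpy (by
      have h1 : (((idx a (2 * X)).card : ℝ)) ^ h ≤ ((h * (2 * X) + 1 : ℕ) : ℝ) * (top a h w X) := by
        exact_mod_cast hpow
      refine h1.trans ?_
      refine mul_le_mul_of_nonneg_right ?_ (Nat.cast_nonneg _)
      push_cast
      nlinarith)
  refine le_trans (le_of_eq ?_) h9
  congr 1
  push_cast
  rw [hu]
  ring

theorem main_trade (h w q : ℕ) (hh : 1 ≤ h) (hq : 2 ≤ q) (δ : ℝ) (hδ : 0 < δ) :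
    ∃ c : ℝ, 0 < c ∧ c < 1 ∧ ∀ a : ℕ → ℕ, StrictMono a → ∀ (Ω : Type*) [MeasurableSpace Ω]
      (μ : Measure Ω) [IsProbabilityMeasure μ] (ε : ℕ → Ω → ℕ), (∀ i, Measurable (ε i)) → iIndepFun ε μ →
      (∀ i ω, ε i ω ≤ w) → (∀ i, δ ≤ μ.real {ω | q ∣ a i + ε i ω}) →
      ∀ᵐ ω ∂μ, ∀ᶠ x : ℕ in atTop, ∀ R : ℕ, (R : ℝ) ≤ c * Real.log x →
        (∀ m ≤ x, (reps (Set.range fun i => a i + ε i ω) h m).ncard ≤ R) →
        c ^ (R + 1) * x ≤ ({n | n ≤ x ∧ reps (Set.range fun i => a i + ε i ω) h n = ∅}.ncard : ℝ) := by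
  classical
  have hhr : (1 : ℝ) ≤ h := by exact_mod_cast hh
  have hq0 : 0 < q := by omega
  have hqr : (2 : ℝ) ≤ q := by exact_mod_cast hq
  set L : ℝ := |Real.log δ| with hL
  have hL0 : 0 ≤ L := abs_nonneg _
  set η : ℝ := 1 / (8 * h ^ 2 * (L + 1)) with hη
  have hη0 : 0 < η := by positivity
  have hη1 : η ≤ 1 := by
    rw [hη, div_le_one (by positivity)]
    nlinarith [sq_nonneg ((h : ℝ) - 1)]
  have hηL : L * (η * h) ≤ 1 / (8 * h) := by
    rw [hη]
    have e : L * (1 / (8 * (h : ℝ) ^ 2 * (L + 1)) * h) = L / (L + 1) * (1 / (8 * h)) := by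
      field_simp
    rw [e]
    have h1 : L / (L + 1) ≤ 1 := by
      rw [div_le_one (by positivity)]; linarith
    exact mul_le_of_le_one_left (by positivity) h1
  set K : ℕ := (2 * (h * w) + 1) * (h * (w + 1)) ^ h with hK
  have hK0 : 0 < K := by positivity
  have hKr : (0 : ℝ) < K := by exact_mod_cast hK0
  set c : ℝ := min (min (η / (2 * K)) (1 / (32 * h * q))) (δ ^ (h * K)) with hc
  have hc1 : c ≤ η / (2 * K) := (min_le_left _ _).trans (min_le_left _ _)
  have hc2 : c ≤ 1 / (32 * h * q) := (min_le_left _ _).trans (min_le_right _ _)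
  have hc3 : c ≤ δ ^ (h * K) := min_le_right _ _
  have hc0 : 0 < c := by
    rw [hc]
    refine lt_min (lt_min (by positivity) (by positivity)) (by positivity)
  have hclt : c < 1 := by
    refine lt_of_le_of_lt hc2 ?_
    rw [div_lt_one (by positivity)]
    nlinarith
  refine ⟨c, hc0, hclt, fun a ha Ω _ μ _ ε hmeas hind hw hδG => ?_⟩
  set G : ℕ → Set Ω := fun i => {ω | q ∣ a i + ε i ω} with hG
  set m : ℕ → MeasurableSpace Ω := fun i => (⊤ : MeasurableSpace ℕ).comap (ε i) with hm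
  have hle : ∀ i, m i ≤ (inferInstance : MeasurableSpace Ω) := fun i => (hmeas i).comap_le
  have hindm : iIndep m μ := hind.iIndep
  have hGm : ∀ i, MeasurableSet[m i] (G i) := fun i => ⟨{k | q ∣ a i + k}, trivial, rfl⟩
  have hδ1 : δ ≤ 1 := (hδG 0).trans measureReal_le_one
  obtain ⟨C, hC⟩ := scale_prob ha h w q hh hq δ η hδ hη0 hη1 hηL μ hle hindm hGm hδG
  choose D hDc hD using exists_D q hq
  set bad : ℕ → Set Ω := fun X => if (top a h w X : ℝ) ≤ η * Real.log X then
    {ω | (((D X).filter fun n => ω ∈ ⋂ i ∈ inv a h w n, G i).card : ℝ) <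
        δ ^ (top a h w X * h) * (D X).card / 2} else ∅ with hbad
  have hC0 : ∀ᶠ X : ℕ in atTop, μ.real (bad X) ≤ |C| * (((X : ℝ) ^ (1 / (8 * h : ℝ))) ^ 4)⁻¹ := by
    filter_upwards [hC] with X hX
    rw [hbad]
    dsimp only
    split_ifs with ht
    · refine (hX ht (D X) (hDc X) (hD X)).trans ?_
      exact mul_le_mul_of_nonneg_right (le_abs_self C) (by positivity)
    · rw [measureReal_empty]
      positivity
  -- dyadic scales
  set ρ : ℝ := ((2 : ℝ) ^ (-(1 / (2 * h : ℝ)))) with hρ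
  have hρ0 : 0 < ρ := by positivity
  have hρ1 : ρ < 1 := by
    rw [hρ]
    exact Real.rpow_lt_one_of_one_lt_of_neg (by norm_num) (by
      rw [neg_lt_zero]; positivity)
  have hdy : ∀ k : ℕ, ((((2 ^ k : ℕ) : ℝ) ^ (1 / (8 * h : ℝ))) ^ 4)⁻¹ = ρ ^ k := by
    intro k
    rw [hρ, ← Real.rpow_natCast _ 4, ← Real.rpow_mul (by positivity), ← Real.rpow_neg (by positivity)]
    push_cast
    rw [← Real.rpow_natCast 2 k, ← Real.rpow_mul (by norm_num), ← Real.rpow_natCast _ k,
      ← Real.rpow_mul (by norm_num)]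
    congr 1
    field_simp
    ring
  have hpow2 : Tendsto (fun k : ℕ => 2 ^ k) atTop (atTop : Filter ℕ) :=
    tendsto_pow_atTop_atTop_of_one_lt (by norm_num)
  have hC1 : ∀ᶠ k : ℕ in atTop, μ (bad (2 ^ k)) ≤ ENNReal.ofReal (|C| * ρ ^ k) := by
    filter_upwards [hpow2.eventually hC0] with k hk
    rw [hdy k] at hk
    rw [← ofReal_measureReal (μ := μ)]
    exact ENNReal.ofReal_le_ofReal hk
  obtain ⟨k0, hk0⟩ := eventually_atTop.1 hC1
  have hsum : (∑' k, μ (if k < k0 then ∅ else bad (2 ^ k))) ≠ ⊤ := by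
    have h1 : Summable fun k : ℕ => |C| * ρ ^ k :=
      (summable_geometric_of_lt_one hρ0.le hρ1).mul_left _
    refine ne_top_of_le_ne_top h1.tsum_ofReal_ne_top (ENNReal.tsum_le_tsum fun k => ?_)
    split_ifs with hk
    · simp
    · exact hk0 k (by omega)
  filter_upwards [ae_eventually_notMem hsum] with ω hω
  obtain ⟨k1, hk1⟩ := eventually_atTop.1 hω
  -- now everything is deterministic
  have hbig : ∀ᶠ x : ℕ in atTop, h * w * 2 ≤ x ∧ 2 * h * (2 ^ (max k0 k1)) + h * w ≤ x ∧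
      64 * h * h ≤ x ∧ 16 * h * q ≤ x :=
    (eventually_ge_atTop _).and ((eventually_ge_atTop _).and ((eventually_ge_atTop _).and
      (eventually_ge_atTop _)))
  filter_upwards [hbig] with x hx R hR hrep
  obtain ⟨hx1, hx2, hx3, hx4⟩ := hx
  have h2h : 0 < 2 * h := by omega
  set z : ℕ := (x - h * w) / (2 * h) with hz
  have hz1 : 2 ^ (max k0 k1) ≤ z := by
    rw [hz, Nat.le_div_iff_mul_le h2h, mul_comm]
    omega
  have hz0 : z ≠ 0 := by
    have : 0 < 2 ^ (max k0 k1) := by positivity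
    omega
  set k : ℕ := Nat.log 2 z with hk
  have hkX : 2 ^ k ≤ z := Nat.pow_log_le_self 2 hz0
  have hkX' : z < 2 ^ (k + 1) := Nat.lt_pow_succ_log_self (by norm_num) z
  have hkmax : max k0 k1 ≤ k := by
    rw [hk]
    exact Nat.le_log_of_pow_le (by norm_num) hz1
  set X : ℕ := 2 ^ k with hX
  have hXpos : 0 < X := by rw [hX]; positivity
  have hXx : h * (2 * X) + h * w ≤ x := by
    have h1 : 2 * h * X ≤ 2 * h * z := Nat.mul_le_mul_left _ hkX
    have h2 : 2 * h * z ≤ x - h * w := Nat.mul_div_le _ _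
    have h3 : h * (2 * X) = 2 * h * X := by ring
    omega
  have h2X : 2 * X ≤ x := by
    have : 2 * X ≤ h * (2 * X) := Nat.le_mul_of_pos_left _ hh
    omega
  have hxX : x ≤ 8 * h * X := by
    have h1 : x - h * w < 2 * h * (z + 1) := by
      rw [hz]
      exact Nat.lt_mul_div_succ _ h2h
    have h2 : z + 1 ≤ 2 * X := by
      rw [pow_succ] at hkX'
      omega
    have h3 : 2 * h * (z + 1) ≤ 2 * h * (2 * X) := Nat.mul_le_mul_left _ h2
    have h4 : 2 * (2 * h * (2 * X)) = 8 * h * X := by ring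
    omega
  have hXr : (0 : ℝ) < X := by exact_mod_cast hXpos
  have hxX' : (x : ℝ) ≤ 8 * h * X := by exact_mod_cast hxX
  have hx0 : (0 : ℝ) < x := by
    have : 0 < x := by nlinarith
    exact_mod_cast this
  have hlog : Real.log x ≤ 2 * Real.log X := by
    have h1 : (x : ℝ) ≤ (X : ℝ) ^ 2 := by
      have h2 : (64 : ℝ) * h * h ≤ x := by exact_mod_cast hx3
      have h3 : (x : ℝ) ^ 2 ≤ (8 * h * X) ^ 2 := pow_le_pow_left₀ hx0.le hxX' 2
      have h4 : (8 * (h : ℝ) * X) ^ 2 = (64 * h * h) * X ^ 2 := by ring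
      rw [h4] at h3
      have h5 : (64 * (h : ℝ) * h) * X ^ 2 ≤ x * X ^ 2 := by gcongr
      have h6 : (x : ℝ) * x ≤ x * X ^ 2 := by nlinarith
      exact le_of_mul_le_mul_left h6 hx0
    calc Real.log x ≤ Real.log ((X : ℝ) ^ 2) := Real.log_le_log hx0 h1
      _ = 2 * Real.log X := by rw [Real.log_pow]; norm_num
  have htop : top a h w X ≤ K * R := by
    refine top_le fun n hn => ?_
    obtain ⟨m', hm1, hm2, hm3⟩ := rep_lower a (fun i => ε i ω) ha h w (fun i => hw i ω) n
    have h1 := hrep m' (by omega)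
    calc (sol a h w n).card ≤ (2 * (h * w) + 1) * ((h * (w + 1)) ^ h *
          (reps (Set.range fun i => a i + ε i ω) h m').ncard) := hm3
      _ ≤ (2 * (h * w) + 1) * ((h * (w + 1)) ^ h * R) := by gcongr
      _ = K * R := by rw [hK]; ring
  have htopr : (top a h w X : ℝ) ≤ η * Real.log X := by
    have h1 : (top a h w X : ℝ) ≤ K * R := by exact_mod_cast htop
    have hlx : 0 ≤ Real.log x := Real.log_natCast_nonneg x
    calc (top a h w X : ℝ) ≤ K * R := h1
      _ ≤ K * (c * Real.log x) := by gcongr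
      _ ≤ K * (η / (2 * K) * Real.log x) := by gcongr
      _ = η / 2 * Real.log x := by field_simp
      _ ≤ η / 2 * (2 * Real.log X) := by gcongr
      _ = η * Real.log X := by ring
  have hnot := hk1 k ((le_max_right _ _).trans hkmax)
  rw [if_neg (by have := (le_max_left k0 k1).trans hkmax; omega)] at hnot
  have hbadX : bad (2 ^ k) = {ω | (((D X).filter fun n => ω ∈ ⋂ i ∈ inv a h w n, G i).card : ℝ) <
        δ ^ (top a h w X * h) * (D X).card / 2} := by
    rw [hbad]
    dsimp only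
    rw [← hX, if_pos htopr]
  rw [hbadX] at hnot
  have hcount : δ ^ (top a h w X * h) * (D X).card / 2 ≤
      (((D X).filter fun n => ω ∈ ⋂ i ∈ inv a h w n, G i).card : ℝ) := not_lt.1 hnot
  have hle2 : ((D X).filter fun n => ω ∈ ⋂ i ∈ inv a h w n, G i).card ≤
      {n | n ≤ x ∧ reps (Set.range fun i => a i + ε i ω) h n = ∅}.ncard := by
    rw [← Set.ncard_coe_finset]
    refine Set.ncard_le_ncard ?_ ((Set.finite_Iic x).subset fun n hn => hn.1)
    intro n hn
    rw [mem_coe, mem_filter] at hn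
    obtain ⟨h1, h2, h3⟩ := hD X n hn.1
    refine ⟨by omega, not_rep ha (z := fun i => ε i ω) (fun i => hw i ω) h3 fun i hi => ?_⟩
    have h4 := hn.2
    rw [Set.mem_iInter₂] at h4
    exact h4 i hi
  have hdr : c * x ≤ ((D X).card : ℝ) / 2 := by
    have h3 : X < q * (X / q + 1) := by
      have := Nat.lt_mul_div_succ X hq0
      simpa using this
    have h4 : (X : ℝ) < q * (((D X).card : ℝ) + 1) := by rw [hDc]; exact_mod_cast h3
    have h5 : (16 : ℝ) * h * q ≤ x := by exact_mod_cast hx4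
    have h6 : (2 : ℝ) * q ≤ X := by
      have h7 : (8 * (h : ℝ)) * (2 * q) ≤ 8 * h * X := by linarith
      exact le_of_mul_le_mul_left h7 (by positivity)
    have h8 : (X : ℝ) / (2 * q) ≤ (D X).card := by
      rw [div_le_iff₀ (by positivity)]
      nlinarith
    calc c * x ≤ 1 / (32 * h * q) * (8 * h * X) := mul_le_mul hc2 hxX' hx0.le (by positivity)
      _ = (X : ℝ) / (2 * q) / 2 := by field_simp; ring
      _ ≤ _ := by gcongr
  have hpw : c ^ R ≤ δ ^ (top a h w X * h) := by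
    calc c ^ R ≤ (δ ^ (h * K)) ^ R := pow_le_pow_left₀ hc0.le hc3 R
      _ = δ ^ (K * R * h) := by rw [← pow_mul]; congr 1; ring
      _ ≤ δ ^ (top a h w X * h) := pow_le_pow_of_le_one hδ.le hδ1 (Nat.mul_le_mul_right _ htop)
  calc c ^ (R + 1) * x = c ^ R * (c * x) := by ring
    _ ≤ δ ^ (top a h w X * h) * (((D X).card : ℝ) / 2) := by
        refine mul_le_mul hpw hdr (by positivity) (by positivity)
    _ = δ ^ (top a h w X * h) * (D X).card / 2 := by ring
    _ ≤ (((D X).filter fun n => ω ∈ ⋂ i ∈ inv a h w n, G i).card : ℝ) := hcount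
    _ ≤ _ := by exact_mod_cast hle2

end Pool.Agent.H261ET
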