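import Mathlib

set_option autoImplicit false

/-!
Independent events and disjoint finite blocks: the probability that in no block all the events occur.
-/

open MeasureTheory ProbabilityTheory Filter

namespace Pool.Agent.H261ET

variable {Ω : Type*} [mΩ : MeasurableSpace Ω] {μ : Measure Ω} [IsProbabilityMeasure μ]

theorem block_meas {m : ℕ → MeasurableSpace Ω} {G : ℕ → Set Ω} (hG : ∀ i, MeasurableSet[m i] (G i))
    (J : Finset ℕ) : MeasurableSet[⨆ i ∈ (J : Set ℕ), m i] (⋂ i ∈ J, G i) := by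
  refine @MeasurableSet.biInter _ _ (⨆ i ∈ (J : Set ℕ), m i) _ _ J.countable_toSet fun i hi => ?_
  have hle : m i ≤ ⨆ i ∈ (J : Set ℕ), m i := le_iSup₂_of_le i hi le_rfl
  exact hle _ (hG i)

omit [IsProbabilityMeasure μ] in
theorem block_prob {m : ℕ → MeasurableSpace Ω} (hind : iIndep m μ)
    {G : ℕ → Set Ω} (hG : ∀ i, MeasurableSet[m i] (G i)) {δ : ℝ} (hδ : 0 ≤ δ)
    (hδG : ∀ i, δ ≤ μ.real (G i)) (J : Finset ℕ) : δ ^ J.card ≤ μ.real (⋂ i ∈ J, G i) := by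
  have h1 : μ (⋂ i ∈ J, G i) = ∏ i ∈ J, μ (G i) := hind.meas_biInter fun i _ => hG i
  have h2 : μ.real (⋂ i ∈ J, G i) = ∏ i ∈ J, μ.real (G i) := by
    unfold Measure.real
    rw [h1, ENNReal.toReal_prod]
  rw [h2, ← Finset.prod_const]
  exact Finset.prod_le_prod (fun _ _ => hδ) fun i _ => hδG i

theorem no_block {m : ℕ → MeasurableSpace Ω} (hle : ∀ i, m i ≤ mΩ) (hind : iIndep m μ)
    {G : ℕ → Set Ω} (hG : ∀ i, MeasurableSet[m i] (G i)) {δ : ℝ} (hδ : 0 ≤ δ) (hδ1 : δ ≤ 1)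
    (hδG : ∀ i, δ ≤ μ.real (G i)) (I : ℕ → Finset ℕ) (B : ℕ) (S : Finset ℕ)
    (hdisj : (S : Set ℕ).PairwiseDisjoint I) (hB : ∀ n ∈ S, (I n).card ≤ B) :
    μ.real (⋂ n ∈ S, (⋂ i ∈ I n, G i)ᶜ) ≤ (1 - δ ^ B) ^ S.card := by
  classical
  induction S using Finset.induction_on with
  | empty => simp
  | insert n S hn ih =>
    have h1 : (⋂ n' ∈ insert n S, (⋂ i ∈ I n', G i)ᶜ) =
        (⋂ i ∈ I n, G i)ᶜ ∩ ⋂ n' ∈ S, (⋂ i ∈ I n', G i)ᶜ := by
      rw [Finset.set_biInter_insert]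
    have hdis : Disjoint (I n : Set ℕ) (⋃ n' ∈ S, (I n' : Set ℕ)) := by
      rw [Set.disjoint_iUnion₂_right]
      intro n' hn'
      have := hdisj (Finset.mem_coe.2 (Finset.mem_insert_self n S))
        (Finset.mem_coe.2 (Finset.mem_insert_of_mem hn')) (fun h => hn (h ▸ hn'))
      rwa [Function.onFun, ← Finset.disjoint_coe] at this
    have hI := indep_iSup_of_disjoint hle hind hdis
    have hX : MeasurableSet[⨆ i ∈ (I n : Set ℕ), m i] ((⋂ i ∈ I n, G i)ᶜ) :=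
      (block_meas hG (I n)).compl
    have hY : MeasurableSet[⨆ i ∈ (⋃ n' ∈ S, (I n' : Set ℕ)), m i]
        (⋂ n' ∈ S, (⋂ i ∈ I n', G i)ᶜ) := by
      refine @MeasurableSet.biInter _ _ (⨆ i ∈ (⋃ n' ∈ S, (I n' : Set ℕ)), m i) _ _
        S.countable_toSet fun n' hn' => ?_
      have hle' : (⨆ i ∈ (I n' : Set ℕ), m i) ≤ ⨆ i ∈ (⋃ n' ∈ S, (I n' : Set ℕ)), m i := by
        refine iSup₂_le fun i hi => ?_
        exact le_iSup₂_of_le (f := fun i _ => m i) i (Set.mem_biUnion hn' hi) le_rfl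
      exact hle' _ (block_meas hG (I n')).compl
    have h2 : μ ((⋂ i ∈ I n, G i)ᶜ ∩ ⋂ n' ∈ S, (⋂ i ∈ I n', G i)ᶜ) =
        μ ((⋂ i ∈ I n, G i)ᶜ) * μ (⋂ n' ∈ S, (⋂ i ∈ I n', G i)ᶜ) :=
      (Indep_iff _ _ μ).1 hI _ _ hX hY
    have h3 : μ.real ((⋂ i ∈ I n, G i)ᶜ) ≤ 1 - δ ^ B := by
      rw [probReal_compl_eq_one_sub]
      · have h4 := block_prob hind hG hδ hδG (I n)
        have h5 : δ ^ B ≤ δ ^ (I n).card :=
          pow_le_pow_of_le_one hδ hδ1 (hB n (Finset.mem_insert_self n S))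
        linarith
      · exact Finset.measurableSet_biInter _ fun i _ => hle i _ (hG i)
    have h6 := ih (hdisj.subset (Finset.coe_subset.2 (Finset.subset_insert n S)))
      (fun n' hn' => hB n' (Finset.mem_insert_of_mem hn'))
    rw [h1, measureReal_def, h2, ENNReal.toReal_mul, ← measureReal_def, ← measureReal_def,
      Finset.card_insert_of_notMem hn, pow_succ']
    refine mul_le_mul h3 h6 measureReal_nonneg ?_
    have : δ ^ B ≤ 1 := pow_le_one₀ hδ hδ1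
    linarith

end Pool.Agent.H261ET
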