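import Pool.Agent.H261ET.Comb

set_option autoImplicit false

/-!
Many index tuples with sum near `n` give an integer near `n` with many representations by the shifted set.
-/

open Finset

namespace Pool.Agent.H261ET

/-- the representations of `n` by `h` elements of `A`, the order being disregarded -/
def reps (A : Set ℕ) (h n : ℕ) : Set (Multiset ℕ) :=
  {s | Multiset.card s = h ∧ (∀ x ∈ s, x ∈ A) ∧ s.sum = n}

theorem reps_finite (A : Set ℕ) (h n : ℕ) : (reps A h n).Finite := by
  refine (Multiset.powerset (h • Multiset.range (n + 1))).toFinset.finite_toSet.subset fun s hs => ?_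
  obtain ⟨h1, -, h3⟩ := hs
  rw [Finset.mem_coe, Multiset.mem_toFinset, Multiset.mem_powerset, Multiset.le_iff_count]
  intro x
  by_cases hx : x ∈ s
  · have h4 : x ≤ n := by
      rw [← h3]
      exact Multiset.single_le_sum (fun _ _ => Nat.zero_le _) x hx
    rw [Multiset.count_nsmul, Multiset.count_eq_one_of_mem (Multiset.nodup_range _)
      (Multiset.mem_range.2 (by omega)), mul_one, ← h1]
    exact Multiset.count_le_card x s
  · rw [Multiset.count_eq_zero_of_notMem hx]
    exact Nat.zero_le _

theorem card_fibre_le (a z : ℕ → ℕ) (ha : StrictMono a) (w : ℕ) (hz : ∀ i, z i ≤ w) (N v : ℕ) :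
    ((range N).filter fun i => a i + z i = v).card ≤ w + 1 := by
  have h1 : ((range N).filter fun i => a i + z i = v).card ≤ (Icc (v - w) v).card := by
    refine card_le_card_of_injOn a (fun i hi => ?_) ha.injective.injOn
    rw [mem_coe, mem_filter] at hi
    rw [mem_coe, mem_Icc]
    have := hz i
    omega
  rw [Nat.card_Icc] at h1
  omega

theorem card_values (a z : ℕ → ℕ) (ha : StrictMono a) (h w : ℕ) (hz : ∀ i, z i ≤ w) (N : ℕ)
    (s : Multiset ℕ) (hs : Multiset.card s = h) :
    ((range N).filter fun i => a i + z i ∈ s.toFinset).card ≤ h * (w + 1) := by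
  classical
  have h1 : ((range N).filter fun i => a i + z i ∈ s.toFinset) ⊆
      s.toFinset.biUnion fun v => (range N).filter fun i => a i + z i = v := by
    intro i hi
    rw [mem_filter] at hi
    rw [mem_biUnion]
    exact ⟨_, hi.2, mem_filter.2 ⟨hi.1, rfl⟩⟩
  refine (card_le_card h1).trans ((card_biUnion_le_card_mul _ _ (w + 1) fun v _ =>
    card_fibre_le a z ha w hz N v).trans ?_)
  refine Nat.mul_le_mul_right _ ?_
  rw [← hs]
  exact s.toFinset_card_le

theorem card_sum_eq (a z : ℕ → ℕ) (ha : StrictMono a) (h w : ℕ) (hz : ∀ i, z i ≤ w) (n m : ℕ) :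
    ((sol a h w n).filter fun f => ∑ j, (a (f j) + z (f j)) = m).card ≤
      (h * (w + 1)) ^ h * (reps (Set.range fun i => a i + z i) h m).ncard := by
  classical
  set F := (sol a h w n).filter fun f => ∑ j, (a (f j) + z (f j)) = m with hF
  set φ : (Fin h → ℕ) → Multiset ℕ := fun f => (univ : Finset (Fin h)).val.map
    fun j => a (f j) + z (f j) with hφ
  have h1 : F.card ≤ (h * (w + 1)) ^ h * (F.image φ).card := by
    refine card_le_mul_card_image F _ fun s hs => ?_
    rw [mem_image] at hs
    obtain ⟨g, -, hg⟩ := hs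
    have hcard : Multiset.card s = h := by
      rw [← hg, hφ]
      simp
    have h2 : (F.filter fun f => φ f = s) ⊆ Fintype.piFinset fun _ : Fin h =>
        (range (n + 1)).filter fun i => a i + z i ∈ s.toFinset := by
      intro f hf
      rw [mem_filter] at hf
      rw [Fintype.mem_piFinset]
      intro j
      have hf1 : f ∈ sol a h w n := (mem_filter.1 hf.1).1
      unfold sol at hf1
      rw [mem_filter, Fintype.mem_piFinset] at hf1
      rw [mem_filter]
      refine ⟨hf1.1 j, ?_⟩
      rw [Multiset.mem_toFinset, ← hf.2, hφ]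
      exact Multiset.mem_map.2 ⟨j, mem_univ j, rfl⟩
    refine (card_le_card h2).trans ?_
    rw [Fintype.card_piFinset_const]
    exact Nat.pow_le_pow_left (card_values a z ha h w hz (n + 1) s hcard) h
  refine h1.trans (Nat.mul_le_mul_left _ ?_)
  rw [← Set.ncard_coe_finset]
  refine Set.ncard_le_ncard ?_ (reps_finite _ h m)
  intro s hs
  rw [mem_coe, mem_image] at hs
  obtain ⟨f, hf, rfl⟩ := hs
  rw [hF, mem_filter] at hf
  refine ⟨by rw [hφ]; simp, fun x hx => ?_, ?_⟩
  · rw [hφ] at hx
    obtain ⟨j, -, rfl⟩ := Multiset.mem_map.1 hx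
    exact ⟨f j, rfl⟩
  · exact hf.2

theorem rep_lower (a z : ℕ → ℕ) (ha : StrictMono a) (h w : ℕ) (hz : ∀ i, z i ≤ w) (n : ℕ) :
    ∃ m, n ≤ m + h * w ∧ m ≤ n + h * w ∧ (sol a h w n).card ≤
      (2 * (h * w) + 1) * ((h * (w + 1)) ^ h * (reps (Set.range fun i => a i + z i) h m).ncard) := by
  classical
  obtain ⟨m, hm, hmax⟩ := exists_max_image (Icc (n - h * w) (n + h * w))
    (fun m => (reps (Set.range fun i => a i + z i) h m).ncard) ⟨n, by rw [mem_Icc]; omega⟩
  rw [mem_Icc] at hm
  refine ⟨m, by omega, hm.2, ?_⟩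
  have h1 : sol a h w n ⊆ (Icc (n - h * w) (n + h * w)).biUnion fun m' =>
      (sol a h w n).filter fun f => ∑ j, (a (f j) + z (f j)) = m' := by
    intro f hf
    rw [mem_biUnion]
    refine ⟨∑ j, (a (f j) + z (f j)), ?_, mem_filter.2 ⟨hf, rfl⟩⟩
    rw [mem_sol ha] at hf
    rw [sum_add_distrib, mem_Icc]
    have h2 : ∑ j, z (f j) ≤ ∑ _j : Fin h, w := sum_le_sum fun j _ => hz (f j)
    rw [sum_const, card_univ, Fintype.card_fin, smul_eq_mul] at h2
    omega
  refine (card_le_card h1).trans ?_
  refine (card_biUnion_le_card_mul _ _ ((h * (w + 1)) ^ h *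
    (reps (Set.range fun i => a i + z i) h m).ncard) fun m' hm' => ?_).trans ?_
  · exact (card_sum_eq a z ha h w hz n m').trans (Nat.mul_le_mul_left _ (hmax m' hm'))
  · refine Nat.mul_le_mul_right _ ?_
    rw [Nat.card_Icc]
    omega

end Pool.Agent.H261ET
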