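import Pool.Agent.H261ET.Prob

set_option autoImplicit false

/-!
Second moment: how many of the events `⋂ i ∈ I n, G i` occur, if few pairs of the sets `I n` meet.
-/

open MeasureTheory ProbabilityTheory Filter Finset

namespace Pool.Agent.H261ET

variable {Ω : Type*} [mΩ : MeasurableSpace Ω] {μ : Measure Ω} [IsProbabilityMeasure μ]

theorem pair_prob {m : ℕ → MeasurableSpace Ω} (hind : iIndep m μ)
    {G : ℕ → Set Ω} (hG : ∀ i, MeasurableSet[m i] (G i)) (J J' : Finset ℕ) (hd : Disjoint J J') :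
    μ.real ((⋂ i ∈ J, G i) ∩ ⋂ i ∈ J', G i) = μ.real (⋂ i ∈ J, G i) * μ.real (⋂ i ∈ J', G i) := by
  classical
  have h1 : ((⋂ i ∈ J, G i) ∩ ⋂ i ∈ J', G i) = ⋂ i ∈ J ∪ J', G i := by
    ext ω
    simp only [Set.mem_inter_iff, Set.mem_iInter, Finset.mem_union]
    exact ⟨fun h i hi => hi.elim (h.1 i) (h.2 i), fun h => ⟨fun i hi => h i (Or.inl hi),
      fun i hi => h i (Or.inr hi)⟩⟩
  rw [h1]
  unfold Measure.real
  rw [hind.meas_biInter fun i _ => hG i, hind.meas_biInter fun i _ => hG i,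
    hind.meas_biInter fun i _ => hG i, Finset.prod_union hd, ENNReal.toReal_mul]

theorem integral_ind (E E' : Set Ω) (hE : MeasurableSet E) (hE' : MeasurableSet E') :
    ∫ ω, (E.indicator (fun _ => (1 : ℝ)) ω - μ.real E) * (E'.indicator (fun _ => (1 : ℝ)) ω - μ.real E') ∂μ =
      μ.real (E ∩ E') - μ.real E * μ.real E' := by
  have i1 : Integrable ((E ∩ E').indicator (fun _ => (1 : ℝ))) μ :=
    (integrable_const 1).indicator (hE.inter hE')
  have i2 : Integrable (E.indicator (fun _ => (1 : ℝ))) μ := (integrable_const 1).indicator hE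
  have i3 : Integrable (E'.indicator (fun _ => (1 : ℝ))) μ := (integrable_const 1).indicator hE'
  have e : (fun ω => (E.indicator (fun _ => (1 : ℝ)) ω - μ.real E) *
      (E'.indicator (fun _ => (1 : ℝ)) ω - μ.real E')) =
      fun ω => ((E ∩ E').indicator (fun _ => (1 : ℝ)) ω - μ.real E' * E.indicator (fun _ => (1 : ℝ)) ω) -
        (μ.real E * E'.indicator (fun _ => (1 : ℝ)) ω - μ.real E * μ.real E') := by
    ext ω
    have : (E ∩ E').indicator (fun _ => (1 : ℝ)) ω =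
        E.indicator (fun _ => (1 : ℝ)) ω * E'.indicator (fun _ => (1 : ℝ)) ω := by
      by_cases h1 : ω ∈ E <;> by_cases h2 : ω ∈ E' <;> simp [h1, h2]
    rw [this]
    ring
  have j1 : Integrable (fun ω => (E ∩ E').indicator (fun _ => (1 : ℝ)) ω -
      μ.real E' * E.indicator (fun _ => (1 : ℝ)) ω) μ := i1.sub (i2.const_mul _)
  have j2 : Integrable (fun ω => μ.real E * E'.indicator (fun _ => (1 : ℝ)) ω - μ.real E * μ.real E') μ :=
    (i3.const_mul _).sub (integrable_const _)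
  have k1 : ∫ ω, ((E ∩ E').indicator (fun _ => (1 : ℝ)) ω -
      μ.real E' * E.indicator (fun _ => (1 : ℝ)) ω) ∂μ = ∫ ω, (E ∩ E').indicator (fun _ => (1 : ℝ)) ω ∂μ -
      ∫ ω, μ.real E' * E.indicator (fun _ => (1 : ℝ)) ω ∂μ := integral_sub i1 (i2.const_mul _)
  have k2 : ∫ ω, (μ.real E * E'.indicator (fun _ => (1 : ℝ)) ω - μ.real E * μ.real E') ∂μ =
      ∫ ω, μ.real E * E'.indicator (fun _ => (1 : ℝ)) ω ∂μ - ∫ _ω, μ.real E * μ.real E' ∂μ :=
    integral_sub (i3.const_mul _) (integrable_const _)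
  rw [e, integral_sub j1 j2, k1, k2,
    integral_const_mul, integral_const_mul, integral_indicator_const _ (hE.inter hE'),
    integral_indicator_const _ hE, integral_indicator_const _ hE', integral_const]
  simp only [smul_eq_mul, mul_one, probReal_univ, one_mul]
  ring

open Classical in
theorem second_moment {m : ℕ → MeasurableSpace Ω} (hle : ∀ i, m i ≤ mΩ) (hind : iIndep m μ)
    {G : ℕ → Set Ω} (hG : ∀ i, MeasurableSet[m i] (G i)) {δ : ℝ} (hδ : 0 < δ) (hδ1 : δ ≤ 1)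
    (hδG : ∀ i, δ ≤ μ.real (G i)) (I : ℕ → Finset ℕ) (B T : ℕ) (D : Finset ℕ) (hD : 0 < D.card)
    (hB : ∀ n ∈ D, (I n).card ≤ B)
    (hT : ∀ n ∈ D, (D.filter fun n' => ¬ Disjoint (I n) (I n')).card ≤ T) :
    μ.real {ω | ((D.filter fun n => ω ∈ ⋂ i ∈ I n, G i).card : ℝ) < δ ^ B * D.card / 2} ≤
      4 * T / (D.card * (δ ^ B) ^ 2) := by
  set E : ℕ → Set Ω := fun n => ⋂ i ∈ I n, G i with hE
  have hEm : ∀ n, MeasurableSet (E n) := fun n =>
    Finset.measurableSet_biInter _ fun i _ => hle i _ (hG i)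
  set p : ℕ → ℝ := fun n => μ.real (E n) with hp
  have hpB : ∀ n ∈ D, δ ^ B ≤ p n := fun n hn =>
    (pow_le_pow_of_le_one hδ.le hδ1 (hB n hn)).trans (block_prob hind hG hδ.le hδG (I n))
  set f : ℕ → Ω → ℝ := fun n ω => (E n).indicator (fun _ => (1 : ℝ)) ω - μ.real (E n) with hf
  have hfi : ∀ n n', Integrable (fun ω => f n ω * f n' ω) μ := by
    intro n n'
    have hmeas : ∀ n, Measurable (f n) := fun n =>
      (measurable_const.indicator (hEm n)).sub measurable_const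
    refine Integrable.of_bound (C := 1) ((hmeas n).mul (hmeas n')).aestronglyMeasurable
      (Eventually.of_forall fun ω => ?_)
    have hb : ∀ n, ‖f n ω‖ ≤ 1 := by
      intro n
      have h1 : 0 ≤ μ.real (E n) := measureReal_nonneg
      have h2 : μ.real (E n) ≤ 1 := measureReal_le_one
      rw [hf, Real.norm_eq_abs, abs_le]
      dsimp only
      by_cases h : ω ∈ E n <;> simp only [h, Set.indicator_of_mem, Set.indicator_of_notMem,
        not_false_eq_true] <;> constructor <;> linarith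
    rw [norm_mul]
    calc ‖f n ω‖ * ‖f n' ω‖ ≤ 1 * 1 := mul_le_mul (hb n) (hb n') (norm_nonneg _) zero_le_one
      _ = 1 := one_mul 1
  -- the variance
  have hV : ∫ ω, (∑ n ∈ D, f n ω) ^ 2 ∂μ ≤ D.card * T := by
    have e1 : ∀ ω, (∑ n ∈ D, f n ω) ^ 2 = ∑ n ∈ D, ∑ n' ∈ D, f n ω * f n' ω := by
      intro ω
      rw [sq, Finset.sum_mul_sum]
    simp only [e1]
    rw [integral_finsetSum _ fun n _ => integrable_finsetSum _ fun n' _ => hfi n n']
    have e2 : ∀ n ∈ D, ∫ ω, ∑ n' ∈ D, f n ω * f n' ω ∂μ ≤ T := by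
      intro n hn
      rw [integral_finsetSum _ fun n' _ => hfi n n']
      have e3 : ∀ n' ∈ D, ∫ ω, f n ω * f n' ω ∂μ ≤ if ¬ Disjoint (I n) (I n') then 1 else 0 := by
        intro n' _
        have e4 : ∫ ω, f n ω * f n' ω ∂μ = μ.real (E n ∩ E n') - μ.real (E n) * μ.real (E n') :=
          integral_ind (E n) (E n') (hEm n) (hEm n')
        rw [e4]
        by_cases hd : Disjoint (I n) (I n')
        · rw [if_neg (not_not.2 hd), hE]
          dsimp only
          rw [pair_prob hind hG _ _ hd, sub_self]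
        · rw [if_pos hd]
          have h1 : μ.real (E n ∩ E n') ≤ 1 := measureReal_le_one
          have h2 : 0 ≤ μ.real (E n) * μ.real (E n') := mul_nonneg measureReal_nonneg measureReal_nonneg
          linarith
      calc ∑ n' ∈ D, ∫ ω, f n ω * f n' ω ∂μ ≤ ∑ n' ∈ D, if ¬ Disjoint (I n) (I n') then (1 : ℝ) else 0 :=
            Finset.sum_le_sum e3
        _ = ((D.filter fun n' => ¬ Disjoint (I n) (I n')).card : ℝ) := by
            rw [Finset.sum_boole]
        _ ≤ T := by exact_mod_cast hT n hn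
    calc ∑ n ∈ D, ∫ ω, ∑ n' ∈ D, f n ω * f n' ω ∂μ ≤ ∑ _n ∈ D, (T : ℝ) := Finset.sum_le_sum e2
      _ = D.card * T := by rw [Finset.sum_const, nsmul_eq_mul]
  set M : ℝ := δ ^ B * D.card with hM
  have hM0 : 0 < M := by
    rw [hM]
    have : (0 : ℝ) < D.card := by exact_mod_cast hD
    positivity
  have hMp : M ≤ ∑ n ∈ D, p n := by
    have := Finset.sum_le_sum hpB
    rw [Finset.sum_const, nsmul_eq_mul] at this
    rw [hM, mul_comm]
    exact this
  have hsub : {ω | ((D.filter fun n => ω ∈ ⋂ i ∈ I n, G i).card : ℝ) < δ ^ B * D.card / 2} ⊆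
      {ω | (M / 2) ^ 2 ≤ (∑ n ∈ D, f n ω) ^ 2} := by
    intro ω hω
    rw [Set.mem_setOf_eq] at hω ⊢
    have h1 : ∑ n ∈ D, f n ω = ((D.filter fun n => ω ∈ ⋂ i ∈ I n, G i).card : ℝ) - ∑ n ∈ D, p n := by
      rw [hf, Finset.sum_sub_distrib]
      congr 1
      rw [← Finset.sum_boole]
      refine Finset.sum_congr rfl fun n _ => ?_
      by_cases h : ω ∈ E n
      · rw [Set.indicator_of_mem h, if_pos h]
      · rw [Set.indicator_of_notMem h, if_neg h]
    rw [h1]
    have h2 : M / 2 ≤ ∑ n ∈ D, p n - ((D.filter fun n => ω ∈ ⋂ i ∈ I n, G i).card : ℝ) := by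
      linarith
    nlinarith
  have hmark := mul_meas_ge_le_integral_of_nonneg (μ := μ) (f := fun ω => (∑ n ∈ D, f n ω) ^ 2)
    (Eventually.of_forall fun ω => sq_nonneg _) (by
      have e1 : (fun ω => (∑ n ∈ D, f n ω) ^ 2) = fun ω => ∑ n ∈ D, ∑ n' ∈ D, f n ω * f n' ω := by
        ext ω
        rw [sq, Finset.sum_mul_sum]
      rw [e1]
      exact integrable_finsetSum _ fun n _ => integrable_finsetSum _ fun n' _ => hfi n n')
    ((M / 2) ^ 2)
  have h3 : μ.real {ω | ((D.filter fun n => ω ∈ ⋂ i ∈ I n, G i).card : ℝ) < δ ^ B * D.card / 2} ≤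
      μ.real {ω | (M / 2) ^ 2 ≤ (∑ n ∈ D, f n ω) ^ 2} := measureReal_mono hsub
  have h4 : (M / 2) ^ 2 * μ.real {ω | (M / 2) ^ 2 ≤ (∑ n ∈ D, f n ω) ^ 2} ≤ D.card * T :=
    hmark.trans hV
  have hDr : (0 : ℝ) < D.card := by exact_mod_cast hD
  have hδB : 0 < δ ^ B := by positivity
  rw [le_div_iff₀ (by positivity)]
  have h5 : (M / 2) ^ 2 * μ.real {ω | ((D.filter fun n => ω ∈ ⋂ i ∈ I n, G i).card : ℝ) <
      δ ^ B * D.card / 2} ≤ D.card * T :=
    (mul_le_mul_of_nonneg_left h3 (by positivity)).trans h4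
  have h6 : (M / 2) ^ 2 = D.card * (D.card * (δ ^ B) ^ 2 / 4) := by
    rw [hM]; ring
  rw [h6, mul_assoc] at h5
  have h7 := le_of_mul_le_mul_left h5 hDr
  linarith

end Pool.Agent.H261ET
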