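import Pool.Agent.H261ET.Rep
import Pool.Agent.H261ET.Second

set_option autoImplicit false

/-!
Bounded random perturbations `a i + ε i` of a set: a trade-off between the representation function and the
number of integers that are not represented.
-/

open Finset Filter Topology MeasureTheory ProbabilityTheory

namespace Pool.Agent.H261ET

theorem exists_D (q : ℕ) (hq : 2 ≤ q) (x : ℕ) :
    ∃ D : Finset ℕ, D.card = x / q ∧ ∀ n ∈ D, x < n ∧ n ≤ 2 * x ∧ ¬ q ∣ n := by
  obtain ⟨e, he, hne⟩ : ∃ e ≤ 1, ¬ q ∣ x + 1 + e := by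
    by_cases h : q ∣ x + 1
    · refine ⟨1, le_rfl, fun h2 => ?_⟩
      have h3 : q ∣ 1 := (Nat.dvd_add_right h).1 h2
      have := Nat.le_of_dvd one_pos h3
      omega
    · exact ⟨0, by omega, by simpa using h⟩
  refine ⟨(range (x / q)).image fun t => x + 1 + e + q * t, ?_, fun n hn => ?_⟩
  · rw [card_image_of_injective, card_range]
    intro s t hst
    exact Nat.eq_of_mul_eq_mul_left (by omega : 0 < q) (Nat.add_left_cancel hst)
  · rw [mem_image] at hn
    obtain ⟨t, ht, rfl⟩ := hn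
    rw [mem_range] at ht
    have h1 : q * (t + 1) ≤ q * (x / q) := Nat.mul_le_mul_left q ht
    have h2 : q * (x / q) ≤ x := Nat.mul_div_le x q
    have h3 : q * (t + 1) = q * t + q := by ring
    refine ⟨by omega, by omega, fun hd => hne ?_⟩
    exact (Nat.dvd_add_left (dvd_mul_right q t)).1 hd

theorem exists_index {A : Set ℕ} {b : ℕ → ℕ} (hA : A = Set.range b) {h n : ℕ} {s : Multiset ℕ}
    (hs : s ∈ reps A h n) : ∃ f : Fin h → ℕ, ∑ j, b (f j) = n := by
  obtain ⟨hc, hsA, hsum⟩ := hs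
  obtain ⟨l, rfl⟩ := Quotient.exists_rep s
  have hl : l.length = h := hc
  subst hl
  have h1 : ∀ i : Fin l.length, ∃ k, b k = l.get i := by
    intro i
    have h2 : l.get i ∈ A := hsA _ (by simp)
    rw [hA] at h2
    exact h2
  choose f hf using h1
  refine ⟨f, ?_⟩
  have h3 : l.sum = n := by simpa using hsum
  rw [← h3]
  simp only [hf]
  have h4 : (List.ofFn l.get).sum = ∑ j, l.get j := List.sum_ofFn
  rw [← h4, List.ofFn_get]

/-- the integers of `D` all of whose indices are in good position are not represented -/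
theorem not_rep {a z : ℕ → ℕ} (ha : StrictMono a) {h w q : ℕ} (hz : ∀ i, z i ≤ w) {n : ℕ}
    (hn : ¬ q ∣ n) (hg : ∀ i ∈ inv a h w n, q ∣ a i + z i) :
    reps (Set.range fun i => a i + z i) h n = ∅ := by
  by_contra hne
  obtain ⟨s, hs⟩ := Set.nonempty_iff_ne_empty.2 hne
  obtain ⟨f, hf⟩ := exists_index rfl hs
  have hfs : f ∈ sol a h w n := by
    rw [mem_sol ha]
    rw [sum_add_distrib] at hf
    have h4 : ∑ j, z (f j) ≤ ∑ _j : Fin h, w := sum_le_sum fun j _ => hz (f j)
    rw [sum_const, card_univ, Fintype.card_fin, smul_eq_mul] at h4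
    omega
  apply hn
  rw [← hf]
  exact dvd_sum fun j _ => hg (f j) (mem_biUnion.2 ⟨f, hfs, mem_image.2 ⟨j, mem_univ j, rfl⟩⟩)

/-- the largest number of index tuples at scale `X` -/
def top (a : ℕ → ℕ) (h w X : ℕ) : ℕ := (range (h * (2 * X) + 1)).sup fun n => (sol a h w n).card

theorem le_top (a : ℕ → ℕ) (h w X n : ℕ) (hn : n ≤ h * (2 * X)) : (sol a h w n).card ≤ top a h w X :=
  Finset.le_sup (f := fun n => (sol a h w n).card) (mem_range.2 (by omega))

theorem top_le {a : ℕ → ℕ} {h w X N : ℕ} (hN : ∀ n ≤ h * (2 * X), (sol a h w n).card ≤ N) :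
    top a h w X ≤ N :=
  Finset.sup_le fun n hn => hN n (by rw [mem_range] at hn; omega)

theorem pairs_le {a : ℕ → ℕ} (ha : StrictMono a) (h w X : ℕ) (hh : 1 ≤ h) (D : Finset ℕ)
    (hD : ∀ n ∈ D, n ≤ 2 * X) (n : ℕ) (hn : n ∈ D) :
    (D.filter fun n' => ¬ Disjoint (inv a h w n) (inv a h w n')).card ≤
      top a h w X * h * (h * (idx a (2 * X)).card ^ (h - 1) * (h * w + 1)) := by
  classical
  have h0 : 2 * X ≤ h * (2 * X) := Nat.le_mul_of_pos_left _ hh
  have h1 : (D.filter fun n' => ¬ Disjoint (inv a h w n) (inv a h w n')) ⊆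
      (inv a h w n).biUnion fun i => D.filter fun n' => i ∈ inv a h w n' := by
    intro n' hn'
    rw [mem_filter, not_disjoint_iff] at hn'
    obtain ⟨h2, i, hi, hi'⟩ := hn'
    rw [mem_biUnion]
    exact ⟨i, hi, mem_filter.2 ⟨h2, hi'⟩⟩
  refine (card_le_card h1).trans ((card_biUnion_le_card_mul _ _ _ fun i _ =>
    card_degree ha h w (2 * X) D hD i).trans ?_)
  refine Nat.mul_le_mul_right _ ((card_inv a h w n).trans (Nat.mul_le_mul_right _ ?_))
  exact le_top a h w X n ((hD n hn).trans h0)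

/-- the real number estimate for the bound of the second moment lemma -/
theorem bound_calc (h : ℕ) (hh : 1 ≤ h) (y P m u q X d p : ℝ) (hy : 1 ≤ y) (hq : 0 < q) (hu : 0 ≤ u)
    (hP : 0 ≤ P) (hm0 : 0 ≤ m) (hX : X = y ^ (8 * h)) (hm : m ≤ y) (hd : X / (2 * q) ≤ d)
    (hp : y⁻¹ ≤ p) (h2 : P ^ h ≤ (2 * h + 1) * X * m) :
    4 * (u * m * P ^ (h - 1)) / (d * p ^ 2) ≤ 8 * q * u * (2 * h + 1) * (y ^ 4)⁻¹ := by
  have hy0 : 0 < y := by linarith
  obtain ⟨g, rfl⟩ : ∃ g, h = g + 1 := ⟨h - 1, by omega⟩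
  rw [Nat.add_sub_cancel]
  set H : ℝ := 2 * ((g + 1 : ℕ) : ℝ) + 1 with hH
  have hH1 : 1 ≤ H := by rw [hH]; push_cast; have : (0:ℝ) ≤ g := Nat.cast_nonneg g; linarith
  have h5 : P ^ (g + 1) ≤ H * y ^ (8 * (g + 1) + 1) := by
    refine h2.trans ?_
    calc H * X * m ≤ H * X * y := by
          refine mul_le_mul_of_nonneg_left hm ?_
          rw [hX]; positivity
      _ = H * y ^ (8 * (g + 1) + 1) := by rw [hX]; ring
  have h6 : P ^ g ≤ H * y ^ (8 * g + 1) := by
    refine le_of_pow_le_pow_left₀ (n := g + 1) (by omega) (by positivity) ?_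
    calc (P ^ g) ^ (g + 1) = (P ^ (g + 1)) ^ g := by rw [← pow_mul, ← pow_mul, mul_comm]
      _ ≤ (H * y ^ (8 * (g + 1) + 1)) ^ g := by gcongr
      _ = H ^ g * y ^ ((8 * (g + 1) + 1) * g) := by rw [mul_pow, ← pow_mul]
      _ ≤ H ^ (g + 1) * y ^ ((8 * g + 1) * (g + 1)) := by
          refine mul_le_mul (pow_le_pow_right₀ hH1 (by omega)) (pow_le_pow_right₀ hy ?_)
            (by positivity) (by positivity)
          nlinarith
      _ = (H * y ^ (8 * g + 1)) ^ (g + 1) := by rw [mul_pow, ← pow_mul]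
  have h7 : 0 < X := by rw [hX]; positivity
  have h8 : X / (2 * q) * (y⁻¹) ^ 2 ≤ d * p ^ 2 := by
    refine mul_le_mul hd ?_ (by positivity) (le_trans (by positivity) hd)
    exact pow_le_pow_left₀ (by positivity) hp 2
  have h9 : 0 < X / (2 * q) * (y⁻¹) ^ 2 := by positivity
  calc 4 * (u * m * P ^ g) / (d * p ^ 2) ≤ 4 * (u * y * (H * y ^ (8 * g + 1))) / (X / (2 * q) * (y⁻¹) ^ 2) := by
        refine div_le_div₀ (by positivity) ?_ h9 h8
        refine mul_le_mul_of_nonneg_left ?_ (by norm_num)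
        refine mul_le_mul ?_ h6 (by positivity) (by positivity)
        exact mul_le_mul_of_nonneg_left hm hu
    _ = 8 * q * u * H * (y ^ 4)⁻¹ := by
        rw [hX]
        field_simp
        ring

end Pool.Agent.H261ET
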